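import Pool.Agent.Lib.MP_18cae5_an.R33

/-!
# MP_18cae5_an, Q1: full (negative) answer, in every dimension `n ≥ 2`

There is a compact subset `K` of the unit sphere of `ℂⁿ` which is not a `(Z)`-set, whose set `E_K` of common
zeros off `K` of all functions of the ball algebra vanishing on `K` meets the sphere but not the open ball.
-/

set_option autoImplicit false

namespace Pool.Agent.Results.MP_18cae5_an.CommonZerosOnSphere

open MP18cae5

theorem result (n : ℕ) (hn : 2 ≤ n) : ∃ K : Set (EuclideanSpace ℂ (Fin n)),
    IsCompact K ∧ K ⊆ Metric.sphere 0 1 ∧ ¬ IsZSet n K ∧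
    (commonZeros n K ∩ Metric.sphere 0 1).Nonempty ∧ commonZeros n K ∩ Metric.ball 0 1 = ∅ :=
  main n hn

end Pool.Agent.Results.MP_18cae5_an.CommonZerosOnSphere
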